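import Pool.Agent.Helper90.MZ.StmtsC

/-!
# MP_79eb7e_lc, module FWB: few models with finitely many constants
-/

set_option autoImplicit false

namespace Pool.Agent.Helper90.MZ

open Pool.Agent.Helper90.TS

/-- the classes are countable -/
theorem fwb_class {V G : Type} [Group G] [MulAction G V] (X : Ctx V G) (b : Set V)
    (hb : b.Finite) (F : (ℕ → Bool) → Set V) (hF : ∀ s, Mdl X (F s) ∧ b ⊆ F s)
    (hinj : ∀ s t, (∃ g ∈ Fx G b, tr g (F s) = F t) → s = t) (s : ℕ → Bool) :
    {t | ∃ g : G, tr g (F s) = F t}.Countable := by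
  haveI : Finite b := hb
  haveI : Countable (F s) := (hF s).1.1.to_subtype
  have hm : ∀ t : {t | ∃ g : G, tr g (F s) = F t}, ∀ x : b, (t.2.choose)⁻¹ • (x : V) ∈ F s := by
    intro t x
    rw [← mem_tr, t.2.choose_spec]
    exact (hF t).2 x.2
  have hi : Function.Injective
      (fun (t : {t | ∃ g : G, tr g (F s) = F t}) (x : b) =>
        (⟨(t.2.choose)⁻¹ • (x : V), hm t x⟩ : F s)) := by
    intro t u htu
    apply Subtype.ext
    apply hinj
    refine ⟨u.2.choose * (t.2.choose)⁻¹, ?_, ?_⟩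
    · intro x hx
      have h1 := congrFun htu ⟨x, hx⟩
      have h2 : (t.2.choose)⁻¹ • x = (u.2.choose)⁻¹ • x := congrArg Subtype.val h1
      rw [mul_smul, h2, smul_inv_smul]
    · have h1 := t.2.choose_spec
      have h2 := u.2.choose_spec
      have h3 : tr (t.2.choose)⁻¹ (F t) = F s := by
        have h4 := congrArg (tr (t.2.choose)⁻¹) h1
        rw [tr_inv_tr] at h4
        exact h4.symm
      rw [← tr_tr, h3]
      exact h2
  exact Set.countable_coe_iff.1 hi.countable

theorem st_FWB : ST_FWB := by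
  intro V G _ _ X b hFew hb ⟨F, hF, hinj⟩
  let S : Setoid (ℕ → Bool) :=
    { r := fun s t => ∃ g : G, tr g (F s) = F t
      iseqv := ⟨fun s => ⟨1, tr_one _⟩, fun {s t} ⟨g, hg⟩ => ⟨g⁻¹, by rw [← hg, tr_inv_tr]⟩,
        fun {s t u} ⟨g, hg⟩ ⟨h, hh⟩ => ⟨h * g, by rw [← tr_tr, hg, hh]⟩⟩ }
  have hcard : Cardinal.mk (ℕ → Bool) ≤ Cardinal.mk (Quotient S) * Cardinal.aleph0 := by
    refine Cardinal.mk_le_mk_mul_of_mk_preimage_le (Quotient.mk S) ?_
    intro c
    induction c using Quotient.inductionOn with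
    | h s =>
      rw [Cardinal.mk_le_aleph0_iff, Set.countable_coe_iff]
      refine (fwb_class X b hb F hF hinj s).mono ?_
      intro t ht
      have h1 : Quotient.mk S t = Quotient.mk S s := ht
      exact S.symm (Quotient.exact h1)
  have hc : Cardinal.mk (ℕ → Bool) = Cardinal.continuum := by
    rw [← Cardinal.power_def]
    simp
  have hle : Cardinal.mk (ℕ → Bool) ≤ Cardinal.mk (Quotient S) := by
    by_contra hlt
    rw [not_le] at hlt
    have h2 : Cardinal.mk (Quotient S) * Cardinal.aleph0 < Cardinal.mk (ℕ → Bool) := by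
      rw [hc] at hlt ⊢
      exact Cardinal.mul_lt_of_lt Cardinal.aleph0_le_continuum hlt Cardinal.aleph0_lt_continuum
    exact absurd hcard (not_le.2 h2)
  obtain ⟨φ⟩ := hle
  apply hFew
  refine ⟨fun s => F (Quotient.out (φ s)), fun s => (hF _).1, ?_⟩
  intro s t hst
  apply φ.injective
  have h3 : S.r (Quotient.out (φ s)) (Quotient.out (φ t)) := hst
  have h4 : Quotient.mk S (Quotient.out (φ s)) = Quotient.mk S (Quotient.out (φ t)) :=
    Quotient.sound h3
  rwa [Quotient.out_eq, Quotient.out_eq] at h4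

end Pool.Agent.Helper90.MZ
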