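import Pool.Agent.Helper90.MZ.StmtsC

/-!
# MP_79eb7e_lc, module PRB: representatives with independent bases
-/

set_option autoImplicit false

namespace Pool.Agent.Helper90.MZ

open Pool.Agent.Helper90.TS

/-- a family indexed by a subsingleton is independent -/
theorem prb_sub {V G : Type} [Group G] [MulAction G V] (X : Ctx V G) (b : Set V)
    {κ : Type} [Subsingleton κ] (S : κ → Set V) : Ind X b S := by
  intro I J hIJ
  rcases Set.eq_empty_or_nonempty I with h | ⟨i, hi⟩
  · subst h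
    simp only [Set.mem_empty_iff_false, Set.iUnion_of_empty, Set.iUnion_empty]
    exact si_empty_left
  · have hJ : J = ∅ := by
      ext j
      constructor
      · intro hj
        rw [Subsingleton.elim j i] at hj
        exact (Set.disjoint_left.1 hIJ hi hj).elim
      · intro hj
        exact hj.elim
    subst hJ
    simp only [Set.mem_empty_iff_false, Set.iUnion_of_empty, Set.iUnion_empty]
    exact si_empty_right

theorem st_PRB (h1 : ST_NOEQ) (h2 : ST_IND) (h3 : ST_SUPU) (h4 : ST_SUPO) : ST_PRB := by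
  intro V G _ _ X b hb
  obtain ⟨nrefl, nsymm, ntrans⟩ := h1 V G X
  obtain ⟨-, -, s3, s4, s5, -, -, -⟩ := h3 V G X
  obtain ⟨o1, o2⟩ := h4 V G X b hb
  refine ⟨?_, ?_, ?_, ?_, ?_, ?_⟩
  · intro κ _ C i hi hf
    refine ⟨C, ?_, ?_⟩
    · intro j hj
      rw [Set.mem_singleton_iff] at hj
      subst hj
      exact ⟨hi, hf, nrefl _ hi⟩
    · exact prb_sub X b _
  · rintro κ _ C J J' hJ ⟨q, hq, hI⟩
    refine ⟨q, fun i hi => hq i (hJ hi), ?_⟩
    exact (h2 V G X b hb).2.2.1 J J' (fun i : J => (q i).A) (Set.inclusion hJ)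
      (Set.inclusion_injective hJ) hI
  · rintro κ κ' _ _ C C' f J hf hC hC' hN ⟨q, hq, hI⟩
    refine ⟨fun i => q (f i), ?_, ?_⟩
    · intro i hi
      obtain ⟨a1, a2, a3⟩ := hq (f i) (Set.mem_image_of_mem f hi)
      exact ⟨a1, a2, ntrans _ _ _ a1 (hC _) (hC' _) a3 (hN i hi)⟩
    · refine (h2 V G X b hb).2.2.1 (f '' J) J (fun i : f '' J => (q i).A)
        (fun i => ⟨f i, Set.mem_image_of_mem f i.2⟩) ?_ hI
      intro i j hij
      apply Subtype.ext
      exact hf i.2 j.2 (congrArg Subtype.val hij)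
  · intro q q' hq hq' hN hS hI
    exact hS (o1 q q' hq hq' hN hI)
  · intro q q' y hq hq' hc hy hS hN hY q'' hq'' hf'' hN'' hI
    have e1 : SI X b q''.A q'.A := hY _ hf''.countable hI
    have e2 : NO X q'' q' := ntrans _ _ _ hq'' hq hq' hN'' (nsymm _ _ hN)
    have e3 : Sup X b q'' := o1 q'' q' hq'' hq' e2 e1
    exact hS (s4 b q'' q hq'' hq hN'' e3)
  · intro q y hq hy hS hS' q' hq' hf' hN' hI
    have e1 : Sup X (b ∪ q'.A) q := by
      intro M hM hbM
      exact s3 M q' q hq' hq hN' (s5 M q' hq' (Set.subset_union_right.trans hbM))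
    exact hS' (o2 y q'.A q hy hq'.cnt hq hS e1 (si_symm hb hq'.cnt hy hI))

end Pool.Agent.Helper90.MZ
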