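import Pool.Agent.Helper90.MZ.StmtsA

set_option autoImplicit false

namespace Pool.Agent.Helper90.MZ

open Pool.Agent.Helper90.TS

variable {V G : Type} [Group G] [MulAction G V]

theorem srdb_top (g : G) : g ∈ Fx G (∅ : Set V) := by
  rw [fx_empty]; trivial

theorem srdb_mdl (X : Ctx V G) (A : Set V) (hA : A.Countable) : ∃ M, Mdl X M ∧ A ⊆ M := by
  obtain ⟨M, hAM, hM⟩ := st_SATM V G X A hA
  refine ⟨M, ⟨hM.1, ?_⟩, hAM⟩
  rintro n D hD ⟨x, hx⟩
  obtain ⟨m, a, E, ha, hE, hDE⟩ := st_FSUP V G X M hM.1 (Fin n) D hD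
  obtain ⟨b', hb', g, hg, hgx⟩ := hM.2 (Set.range a) ha (Set.finite_range a) (Fin n) x
  refine ⟨b', ?_, hb'⟩
  rw [hDE] at hx ⊢
  have h1 : Sum.elim a b' = g • Sum.elim a x := by rw [smul_elim, fx_range.1 hg, hgx]
  change Sum.elim a b' ∈ E
  rw [h1]
  exact hE.2 g (srdb_top g) _ hx

theorem srdb_fin (X : Ctx V G) (A B : Set V) (hA : A.Countable) (hB : B.Countable) {ι : Type}
    [Finite ι] (D : Set (ι → V)) (hD : X.Ov (A ∪ B) D) :
    ∃ F ⊆ B, F.Finite ∧ X.Ov (A ∪ F) D := by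
  obtain ⟨m, a, E, ha, hE, rfl⟩ := st_FSUP V G X (A ∪ B) (hA.union hB) ι D hD
  refine ⟨Set.range a ∩ B, Set.inter_subset_right, (Set.finite_range a).inter_of_left _, ?_⟩
  have h1 : X.Ov (∅ ∪ Set.range a) {x | Sum.elim a x ∈ E} := ov_sec hE a
  refine ov_mono X ?_ h1
  rintro x (hx | hx)
  · exact hx.elim
  · rcases ha hx with h | h
    · exact Or.inl h
    · exact Or.inr ⟨hx, h⟩

theorem srdb_inv (X : Ctx V G) {A : Set V} {κ ι : Type} [Finite κ] [Finite ι] {D : Set (ι → V)}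
    {E : Set (κ ⊕ ι → V)} (hD : X.Ov A D) (hE : X.Ov (∅ : Set V) E) {h : G} (hh : h ∈ Fx G A)
    (z : κ → V) (β : Ordinal.{0}) :
    X.Rge β (D ∩ {x | Sum.elim (h • z) x ∈ E}) ↔ X.Rge β (D ∩ {x | Sum.elim z x ∈ E}) := by
  have e : D ∩ {x | Sum.elim (h • z) x ∈ E} = {x | h⁻¹ • x ∈ D ∩ {x | Sum.elim z x ∈ E}} := by
    ext x
    constructor
    · rintro ⟨h1, h2⟩
      refine ⟨(inv_iff hD.2 (inv_mem hh) x).2 h1, ?_⟩
      have h3 := hE.2 h⁻¹ (srdb_top _) _ h2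
      rw [smul_elim, inv_smul_smul] at h3
      exact h3
    · rintro ⟨h1, h2⟩
      refine ⟨(inv_iff hD.2 (inv_mem hh) x).1 h1, ?_⟩
      have h3 := hE.2 h (srdb_top _) _ h2
      rw [smul_elim, smul_inv_smul] at h3
      exact h3
  rw [e]
  exact (a_rbas V G X ι).2.2.1 β _ h⁻¹

theorem srdb_def (X : Ctx V G) {A : Set V} {κ ι : Type} [Finite κ] [Finite ι] {D : Set (ι → V)}
    {E : Set (κ ⊕ ι → V)} (hD : X.Ov A D) (hE : X.Ov (∅ : Set V) E) (β : Ordinal.{0})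
    (hn : ¬ X.Rge (Order.succ β) D) :
    X.Ov A {z : κ → V | X.Rge β (D ∩ {x | Sum.elim z x ∈ E})} :=
  ⟨a_def V G X κ ι β D E hD.1 hn hE.1, fun h hh z hz => (srdb_inv X hD hE hh z β).2 hz⟩

theorem srdb_enum {S : Set V} (hS : S.Finite) : ∃ (n : ℕ) (f : Fin n → V), Set.range f = S := by
  obtain ⟨n, f, _, hf⟩ := hS.fin_param
  exact ⟨n, f, hf⟩

theorem st_SRDB (h1 : ST_OFA) (h2 : ST_OFN) (h3 : ST_TVL) (h4 : ST_COH) (h5 : ST_PRIM)
    (_h6 : ST_ISLB) (h7 : ST_RLB) (h8 : ST_INVA) (h9 : ST_INVB) : ST_SRDB := by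
  intro V G _ _ X M M1 s g α θ d e hM hM1 hMM1 hs hsA hg hSI hNO hθ hdg hmin hd he hde
  have hMc := hM.1
  have hM1c := hM1.1
  have hsM1 : s.A ∪ M1 = M1 := Set.union_eq_self_of_subset_left hsA
  -- upper bound
  have hle : X.rk M1 e ≤ α := (a_rkb V G X (Fin 1) e).2.1 M1 θ α (ov_mono X hMM1 hθ) he hdg.2.1
  by_contra hne
  have hlt : X.rk M1 e < α := lt_of_le_of_ne hle hne
  -- the set theta1
  obtain ⟨D1, hD1, heD1, hD1r⟩ := (a_rkb V G X (Fin 1) e).1 M1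
  have hθ1 : X.Ov M1 (D1 ∩ θ) := ov_inter hD1 (ov_mono X hMM1 hθ)
  have hθ1r : ¬ X.Rge α (D1 ∩ θ) := by
    intro hc
    have := (a_rbas V G X (Fin 1)).1 α (D1 ∩ θ) D1 hD1.1 Set.inter_subset_left hc
    exact absurd ((hD1r α).1 this) (not_le.2 hlt)
  obtain ⟨m, m1, θ', hm1, hθ', hθeq⟩ := st_FSUP V G X M1 hM1c (Fin 1) (D1 ∩ θ) hθ1
  have hnOr : ¬ OrF X s M1 (D1 ∩ θ) := by
    intro hc
    have := hc M1 hM1c le_rfl e ⟨heD1, he⟩ d hd
    rw [hsM1] at this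
    exact hde this
  -- translate
  have hgeq : {x : Fin 1 → V | g⁻¹ • x ∈ D1 ∩ θ} = {x | Sum.elim (g • m1) x ∈ θ'} := by
    ext x
    rw [hθeq]
    constructor
    · intro hx
      have h3 := hθ'.2 g (srdb_top _) _ hx
      rw [smul_elim, smul_inv_smul] at h3
      exact h3
    · intro hx
      have h3 := hθ'.2 g⁻¹ (srdb_top _) _ hx
      rw [smul_elim, inv_smul_smul] at h3
      exact h3
  have hnOr2 : ¬ OrF X (mv g s) (tr g M1) {x | Sum.elim (g • m1) x ∈ θ'} := by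
    rw [← hgeq]
    intro hc
    have hsc : (mv g s).A.Countable := tr_countable g hs.cnt
    have h10 := (h9 V G X g⁻¹).2.2.2.2.2.2.2.2 (mv g s) (tr g M1) _ hsc hc
    rw [(h8 V G X g).1 s, tr_inv_tr] at h10
    apply hnOr
    have e1 : {x : Fin 1 → V | (g⁻¹)⁻¹ • x ∈ {x : Fin 1 → V | g⁻¹ • x ∈ D1 ∩ θ}} = D1 ∩ θ := by
      ext x
      change g⁻¹ • ((g⁻¹)⁻¹ • x) ∈ D1 ∩ θ ↔ _
      rw [inv_inv, inv_smul_smul]
    rw [e1] at h10
    exact h10
  have hgM1c : (tr g M1).Countable := tr_countable g hM1c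
  have hgm1 : Set.range (g • m1) ⊆ tr g M1 := by
    rw [← tr_range]
    exact tr_mono g hm1
  have hovE : X.Ov (tr g M1) {x : Fin 1 → V | Sum.elim (g • m1) x ∈ θ'} :=
    ov_sec' (ov_mono X (Set.empty_subset _) hθ') hgm1
  have hnOr3 : ¬ OrF X s (tr g M1) {x | Sum.elim (g • m1) x ∈ θ'} := by
    intro hc
    exact hnOr2 ((h1 V G X).2.2 s (mv g s) (tr g M1) _ hs ((h8 V G X g).2.2.1 s hs) hNO hgM1c
      hovE hc)
  -- the model N
  obtain ⟨N0, hN0, hN0s⟩ := srdb_mdl X (M1 ∪ tr g M1) (hM1c.union hgM1c)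
  obtain ⟨N, hNN0, hN⟩ := h5 V G X (M1 ∪ tr g M1) N0 hN0 hN0s
  have hNm : Mdl X N := hN.1
  have hNc := hNm.1
  have hM1N : M1 ⊆ N := Set.subset_union_left.trans hN.2.1
  have hgM1N : tr g M1 ⊆ N := Set.subset_union_right.trans hN.2.1
  have hsN : s.A ∪ N = N := Set.union_eq_self_of_subset_left (hsA.trans hM1N)
  obtain ⟨d2, hd2⟩ := (h7 V G X s hs N hNc).1
  obtain ⟨N', hN', hN's⟩ := srdb_mdl X (N ∪ Set.range d2) (hNc.union (Set.countable_range d2))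
  obtain ⟨x, hxE, _, hxSI⟩ := h2 V G X s (tr g M1) N N' _ d2 hs hgM1N hNm (hsA.trans hM1N) hovE
    hnOr3 hd2 hN' (Set.subset_union_left.trans hN's) (Set.subset_union_right.trans hN's)
  -- the rank
  set αs := X.rk s.A s.z with hαs
  have hrkN : X.rk N d2 = αs := by
    have := ((h7 V G X s hs N hNc).2.2.2.2.2.2.2.2 d2 hd2).1
    rwa [hsN] at this
  have hd2M1 : Rl X s M1 d2 := (h7 V G X s hs N hNc).2.2.1 d2 hd2 M1 (hM1N.trans Set.subset_union_right)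
  have hrkM1 : X.rk M1 d2 = αs := by
    have := ((h7 V G X s hs M1 hM1c).2.2.2.2.2.2.2.2 d2 hd2M1).1
    rwa [hsM1] at this
  have hrkx : X.rk (N ∪ Set.range x) d2 < αs := by
    rw [← hrkN]
    refine lt_of_le_of_ne ((a_rkb V G X (Fin 1) d2).2.2.2.1 _ _ Set.subset_union_left) ?_
    intro hc
    exact hxSI ((rk_si hNc (Set.countable_range x)).1 hc)
  obtain ⟨K, hK, hd2K, hKr⟩ := (a_rkb V G X (Fin 1) d2).1 (N ∪ Set.range x)
  obtain ⟨D0, hD0, hzD0, hD0r⟩ := (a_rkb V G X (Fin 1) s.z).1 s.A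
  have hd2D0 : d2 ∈ D0 := by
    obtain ⟨k, hk, hkd⟩ := hd2.1
    rw [← hkd]
    exact hD0.2 k hk _ hzD0
  have hD0n : ¬ X.Rge (Order.succ αs) D0 := by
    rw [hD0r]
    exact not_le.2 (Order.lt_succ _)
  -- parameters of K
  have hK' : X.Ov (Set.range x ∪ N) K := by rwa [Set.union_comm]
  obtain ⟨F, hFN, hFfin, hKF⟩ := srdb_fin X (Set.range x) N (Set.countable_range x) hNc K hK'
  obtain ⟨l, ν, hν⟩ := srdb_enum hFfin
  have hνN : Set.range ν ⊆ N := by rw [hν]; exact hFN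
  obtain ⟨kap, hkap, hKkap⟩ := a_fsu2 V G X (∅ : Set V) Set.countable_empty (Fin l ⊕ Fin 1) (Fin 1)
    (Sum.elim ν x) K (by
      refine ov_mono X ?_ hKF
      rw [Set.empty_union, Set.Sum.elim_range, hν, Set.union_comm])
  -- isolation of nu
  obtain ⟨DH, hDH, hνDH, hDHe⟩ := hN.2.2 l ν hνN
  obtain ⟨F1, hF1, hF1fin, hDHF⟩ := srdb_fin X M1 (tr g M1) hM1c hgM1c DH hDH
  obtain ⟨r, b, hb⟩ := srdb_enum (hF1fin.union (Set.finite_range (g • m1)))
  have hbg : Set.range b ⊆ tr g M1 := by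
    rw [hb]
    exact Set.union_subset hF1 hgm1
  obtain ⟨E1, hE1, hDHE⟩ := a_fsu2 V G X M1 hM1c (Fin r) (Fin l) b DH (by
    refine ov_mono X ?_ hDHF
    rw [hb]
    exact Set.union_subset_union_right _ Set.subset_union_left)
  have hσ : ∀ j : Fin m, ∃ i : Fin r, b i = (g • m1) j := by
    intro j
    have : (g • m1) j ∈ Set.range b := by
      rw [hb]
      exact Or.inr ⟨j, rfl⟩
    exact this
  choose σ hσ using hσ
  have hbσ : b ∘ σ = g • m1 := funext hσ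
  -- independence
  have hSI2 : SI X M1 (Set.range d2) N :=
    si_up hs.cnt (Set.countable_range d2) hNc hd2.2 hsA (hM1N.trans Set.subset_union_right)
  have hSI3 : SI X M1 (Set.range d2) (tr g M1) :=
    si_right hM1c (Set.countable_range d2) hNc hgM1N hSI2
  have htvl := h3 V G X M1 (tr g M1) (Set.range d2) hM1 hgM1c (Set.countable_range d2) hSI3
    (Fin l) DH ν hDH hνDH hDHe
  have hSI4 : SI X M (tr g M1) (M1 ∪ Set.range d2) := by
    rw [si_union hMc hgM1c hM1c (Set.countable_range d2)]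
    refine ⟨hSI, ?_⟩
    rw [Set.union_eq_self_of_subset_left hMM1]
    exact si_symm hM1c (Set.countable_range d2) hgM1c hSI3
  -- the definable set
  have hθM1 : X.Ov M1 θ := ov_mono X hMM1 hθ
  have hB0 : X.Ov M1 {u : Fin r → V | ∃ z : Fin l → V, Sum.elim u z ∈ E1} := ov_ex hE1
  have hP2 : X.Ov M1 {w : (Fin r ⊕ Fin l) ⊕ Fin 1 → V | w ∘ Sum.inl ∈ E1 ∧ w ∘ Sum.inr ∈ θ} :=
    ov_prod hE1 hθM1
  set P2 : Set ((Fin r ⊕ Fin l) ⊕ Fin 1 → V) := {w | w ∘ Sum.inl ∈ E1 ∧ w ∘ Sum.inr ∈ θ} with hP2d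
  set τ1 : Fin m ⊕ Fin 1 → (Fin r ⊕ Fin l) ⊕ Fin 1 :=
    Sum.elim (fun j => Sum.inl (Sum.inl (σ j))) Sum.inr with hτ1
  set τ2 : Fin l ⊕ Fin 1 → (Fin r ⊕ Fin l) ⊕ Fin 1 :=
    Sum.elim (fun j => Sum.inl (Sum.inr j)) Sum.inr with hτ2
  have hT1 : X.Ov M1 {w | w ∈ P2 ∧ w ∘ τ1 ∈ θ'} :=
    ov_sub (ov_mono X (Set.empty_subset _) hθ') hP2 τ1
  have hQ1 : X.Ov (M1 ∪ Set.range d2) {c' : Fin l ⊕ Fin 1 → V | Sum.elim c' d2 ∈ kap} := by
    refine ov_mono X ?_ (ov_secr hkap d2)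
    rw [Set.empty_union]
    exact Set.subset_union_right
  have hQ2 : X.Ov (M1 ∪ Set.range d2)
      {c' : Fin l ⊕ Fin 1 → V | X.Rge αs (D0 ∩ {y | Sum.elim c' y ∈ kap})} :=
    ov_mono X (hsA.trans Set.subset_union_left) (srdb_def X hD0 hkap αs hD0n)
  have hQ := ov_diff hQ1 hQ2
  have hT2 := ov_sub hQ (ov_mono X (Set.subset_union_left (t := Set.range d2)) hP2) τ2
  have hT := ov_inter (ov_mono X (Set.subset_union_left (t := Set.range d2)) hT1) hT2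
  set T := {w | w ∈ P2 ∧ w ∘ τ1 ∈ θ'} ∩ {w | w ∈ P2 ∧ w ∘ τ2 ∈
    {c' : Fin l ⊕ Fin 1 → V | Sum.elim c' d2 ∈ kap} \
      {c' : Fin l ⊕ Fin 1 → V | X.Rge αs (D0 ∩ {y | Sum.elim c' y ∈ kap})}} with hTd
  have hD' := ov_ex hT
  have hΘ2 := ov_all (ov_mono X (Set.subset_union_left (t := Set.range d2)) hB0)
    (ov_mono X (Set.subset_union_left (t := Set.range d2)) hE1) hD'
  have hR1 : X.Ov M {z : Fin m → V | X.Rge α (θ ∩ {x | Sum.elim z x ∈ θ'})} :=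
    srdb_def X hθ hθ' α hdg.2.1
  have hΘ3 := ov_sub (ov_mono X (hMM1.trans (Set.subset_union_left (t := Set.range d2))) hR1)
    (ov_mono X (Set.subset_union_left (t := Set.range d2)) hB0) σ
  have hΘ := ov_diff hΘ2 hΘ3
  -- b is in the set
  have hbB0 : b ∈ {u : Fin r → V | ∃ z : Fin l → V, Sum.elim u z ∈ E1} := by
    refine ⟨ν, ?_⟩
    have := hνDH
    rw [hDHE] at this
    exact this
  have hxθ : x ∈ θ := by
    have h11 : g⁻¹ • x ∈ D1 ∩ θ := by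
      have : x ∈ {x : Fin 1 → V | g⁻¹ • x ∈ D1 ∩ θ} := by rw [hgeq]; exact hxE
      exact this
    exact (inv_iff hθ.2 (inv_mem hg) x).1 h11.2
  have hnr : ¬ X.Rge αs (D0 ∩ {y | Sum.elim (Sum.elim ν x) y ∈ kap}) := by
    intro hc
    have h11 := (a_rbas V G X (Fin 1)).1 αs _ K hK.1 (by
      rw [hKkap]
      exact Set.inter_subset_right) hc
    exact absurd ((hKr αs).1 h11) (not_le.2 hrkx)
  obtain ⟨u0, hu0, hu0M⟩ := h4 V G X M (tr g M1) (M1 ∪ Set.range d2) hM hgM1c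
    (hM1c.union (Set.countable_range d2)) hSI4 (Fin r) _ b
    (ov_mono X Set.subset_union_right hΘ) (by
      refine ⟨⟨hbB0, ?_⟩, ?_⟩
      · intro z hz
        have hzDH : z ∈ DH := by rw [hDHE]; exact hz
        obtain ⟨h, hh, hhz⟩ := htvl z hzDH
        obtain ⟨hh1, hh2⟩ := fx_union.1 hh
        obtain ⟨hh3, hh4⟩ := fx_union.1 hh1
        have hhd2 : h • d2 = d2 := fx_range.1 hh2
        refine ⟨h • x, ?_, ?_⟩
        · refine ⟨⟨?_, ?_⟩, ?_⟩
          · change (Sum.elim (Sum.elim b z) (h • x)) ∘ Sum.inl ∈ E1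
            rw [Sum.elim_comp_inl]
            exact hz
          · change (Sum.elim (Sum.elim b z) (h • x)) ∘ Sum.inr ∈ θ
            rw [Sum.elim_comp_inr]
            exact hθM1.2 h hh3 _ hxθ
          · have e1 : (Sum.elim (Sum.elim b z) (h • x)) ∘ τ1 = Sum.elim (g • m1) (h • x) := by
              rw [← hbσ]
              funext i
              rcases i with i | i <;> rfl
            rw [e1]
            have h12 := hovE.2 h hh4 _ hxE
            exact h12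
        · refine ⟨⟨?_, ?_⟩, ?_⟩
          · change (Sum.elim (Sum.elim b z) (h • x)) ∘ Sum.inl ∈ E1
            rw [Sum.elim_comp_inl]
            exact hz
          · change (Sum.elim (Sum.elim b z) (h • x)) ∘ Sum.inr ∈ θ
            rw [Sum.elim_comp_inr]
            exact hθM1.2 h hh3 _ hxθ
          · have e1 : (Sum.elim (Sum.elim b z) (h • x)) ∘ τ2 = h • (Sum.elim ν x) := by
              rw [smul_elim, hhz]
              funext i
              rcases i with i | i <;> rfl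
            rw [e1]
            refine ⟨?_, ?_⟩
            · change Sum.elim (h • Sum.elim ν x) d2 ∈ kap
              have h12 : Sum.elim (Sum.elim ν x) d2 ∈ kap := by
                have := hd2K
                rw [hKkap] at this
                exact this
              have h13 := hkap.2 h (srdb_top _) _ h12
              rw [smul_elim, hhd2] at h13
              exact h13
            · intro hc
              have hc' : X.Rge αs (D0 ∩ {y | Sum.elim (h • Sum.elim ν x) y ∈ kap}) := hc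
              rw [srdb_inv X hD0 hkap (fx_anti hsA hh3)] at hc'
              exact hnr hc'
      · rintro ⟨_, hc⟩
        have hc' : X.Rge α (θ ∩ {x | Sum.elim (b ∘ σ) x ∈ θ'}) := hc
        rw [hbσ] at hc'
        have h11 := (a_rbas V G X (Fin 1)).1 α _ _ hovE.1 Set.inter_subset_right hc'
        rw [← hgeq] at h11
        exact hθ1r (((a_rbas V G X (Fin 1)).2.2.1 α (D1 ∩ θ) g⁻¹).1 h11)) hbg
  -- conclusion
  obtain ⟨⟨hu0B, hu0all⟩, hu0R⟩ := hu0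
  have hE0r : ¬ X.Rge α (θ ∩ {x | Sum.elim (u0 ∘ σ) x ∈ θ'}) := fun hc => hu0R ⟨hu0B, hc⟩
  have hu0M1 : Set.range u0 ⊆ M1 := hu0M.trans hMM1
  obtain ⟨ν0, hν0, hν0M⟩ := hM1.2 l {z | Sum.elim u0 z ∈ E1} (ov_sec' hE1 hu0M1) hu0B
  obtain ⟨x0, hx0⟩ := hu0all ν0 hν0
  obtain ⟨⟨⟨_, hx0θ⟩, hx0θ'⟩, ⟨_, hx0Q⟩⟩ := hx0
  have e1 : (Sum.elim (Sum.elim u0 ν0) x0) ∘ Sum.inr = x0 := Sum.elim_comp_inr _ _
  rw [e1] at hx0θ
  have e2 : (Sum.elim (Sum.elim u0 ν0) x0) ∘ τ1 = Sum.elim (u0 ∘ σ) x0 := by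
    funext i
    rcases i with i | i <;> rfl
  rw [e2] at hx0θ'
  have e3 : (Sum.elim (Sum.elim u0 ν0) x0) ∘ τ2 = Sum.elim ν0 x0 := by
    funext i
    rcases i with i | i <;> rfl
  rw [e3] at hx0Q
  obtain ⟨hx0k, hx0r⟩ := hx0Q
  have hovS : X.Ov (M1 ∪ Set.range x0) (D0 ∩ {y | Sum.elim (Sum.elim ν0 x0) y ∈ kap}) := by
    refine ov_inter (ov_mono X (hsA.trans Set.subset_union_left) hD0) ?_
    refine ov_mono X ?_ (ov_sec hkap (Sum.elim ν0 x0))
    rw [Set.empty_union, Set.Sum.elim_range]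
    exact Set.union_subset_union_left _ hν0M
  have hrk0 : X.rk (M1 ∪ Set.range x0) d2 < αs := by
    by_contra hc
    rw [not_lt] at hc
    have h11 := (a_rkb V G X (Fin 1) d2).2.2.1 _ _ hovS ⟨hd2D0, hx0k⟩
    exact hx0r ((a_rbas V G X (Fin 1)).2.1 _ _ _ hc h11)
  have hfin : OrF X s M (θ ∩ {x | Sum.elim (u0 ∘ σ) x ∈ θ'}) := by
    refine hmin _ ?_ hE0r
    refine ov_inter hθ (ov_sec' (ov_mono X (Set.empty_subset _) hθ') ?_)
    exact (Set.range_comp_subset_range _ _).trans hu0M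
  have h12 := hfin M1 hM1c hMM1 x0 ⟨hx0θ, hx0θ'⟩ d2 hd2M1
  rw [hsM1] at h12
  have h13 := (rk_si hM1c (Set.countable_range x0)).2 h12
  rw [hrkM1] at h13
  exact absurd h13 (ne_of_lt hrk0)

end Pool.Agent.Helper90.MZ
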