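import Pool.Agent.Helper90.MZ.StmtsZ

/-!
# MP_79eb7e_lc, module ZX: the list of types
-/

set_option autoImplicit false

namespace Pool.Agent.Helper90.MZ

open Pool.Agent.Helper90.TS

theorem zx_mv_mv {V G : Type} [Group G] [MulAction G V] (g h : G) (p : Ty V) :
    mv g (mv h p) = mv (g * h) p := by
  unfold mv
  simp only [Ty.mk.injEq]
  refine ⟨tr_tr g h p.A, ?_, (mul_smul g h p.z).symm⟩
  ext x
  simp only [Set.mem_ofPred_eq, mul_inv_rev, mul_smul]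

/-- representatives of the classes of a countable set of types -/
theorem zx_pick {V G : Type} [Group G] [MulAction G V] (X : Ctx V G) (h8 : ST_NOEQ)
    (C : Set (Ty V)) (hC : C.Countable) (hsr : ∀ p ∈ C, SR X p) :
    ∃ (Ξ : Type) (_ : Countable Ξ) (q : Ξ → Ty V), (∀ x, q x ∈ C) ∧
      (∀ x y, x ≠ y → ¬ NO X (q x) (q y)) ∧ ∀ p ∈ C, ∃ x, NO X p (q x) := by
  obtain ⟨n1, n2, n3⟩ := h8 V G X
  let S : Setoid C :=
    { r := fun p q => NO X p.1 q.1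
      iseqv := ⟨fun p => n1 _ (hsr _ p.2), fun {p q} h => n2 _ _ h,
        fun {p q r} h h' => n3 _ _ _ (hsr _ p.2) (hsr _ q.2) (hsr _ r.2) h h'⟩ }
  haveI : Countable C := hC.to_subtype
  refine ⟨Quotient S, inferInstance, fun x => (Quotient.out x).1, fun x => (Quotient.out x).2,
    ?_, ?_⟩
  · intro x y hxy hN
    apply hxy
    have h1 : Quotient.mk S (Quotient.out x) = Quotient.mk S (Quotient.out y) :=
      Quotient.sound hN
    rwa [Quotient.out_eq, Quotient.out_eq] at h1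
  · intro p hp
    refine ⟨Quotient.mk S ⟨p, hp⟩, ?_⟩
    exact n2 _ _ (Quotient.mk_out (s := S) (⟨p, hp⟩ : C))

/-- a countable set of types with base in a countable set -/
theorem zx_ctr {V G : Type} [Group G] [MulAction G V] (X : Ctx V G) (h2 : ST_CTR)
    (N : Set V) (hN : N.Countable) :
    ∃ C : Set (Ty V), C.Countable ∧ (∀ p ∈ C, SR X p ∧ p.A.Finite ∧ p.A ⊆ N) ∧
      ∀ p : Ty V, SR X p → p.A.Finite → p.A ⊆ N → ∃ p' ∈ C, p'.A = p.A ∧ p'.D = p.D ∧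
        Eqv G p.A p.z p'.z := by
  by_cases h : ∃ p : Ty V, SR X p ∧ p.A.Finite ∧ p.A ⊆ N
  · obtain ⟨r, hr, hr2⟩ := h2 V G X N hN h
    refine ⟨Set.range r, Set.countable_range r, ?_, ?_⟩
    · rintro _ ⟨n, rfl⟩
      exact hr n
    · intro p a1 a2 a3
      obtain ⟨n, hn⟩ := hr2 p a1 a2 a3
      exact ⟨r n, ⟨n, rfl⟩, hn⟩
  · refine ⟨∅, Set.countable_empty, ?_, ?_⟩
    · intro p hp
      exact hp.elim
    · intro p a1 a2 a3
      exact (h ⟨p, a1, a2, a3⟩).elim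

theorem st_ZX (h1 : ST_ZC) (h2 : ST_CTR) (h3 : ST_FO) (h4 : ST_STN) (h5 : ST_ISLB)
    (h6 : ST_INVA) (_h7 : ST_INVB) (h8 : ST_NOEQ) (_h9 : ST_MDLB) (_h10 : ST_ENIU)
    (_h11 : ST_SUPU) : ST_ZX := by
  intro V G _ _ X Q a d s t κ _ l z c M1 hFew hZS hWQ hM1Q hAt
  obtain ⟨n1, n2, n3⟩ := h8 V G X
  have hM1 : Mdl X M1 := hAt.1
  have haW : a ⊆ WW a z c := Set.subset_union_left
  have hSM : WW a z c ∪ Set.range d ⊆ M1 := hAt.2.1
  have haM : a ⊆ M1 := (haW.trans Set.subset_union_left).trans hSM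
  have hWc : (WW a z c).Countable := hM1.1.mono (Set.subset_union_left.trans hSM)
  have hac : a.Countable := hZS.afin.countable
  obtain ⟨m, q0, hq0, -, hq03⟩ := hZS.z4
  -- level zero
  have hmove : ∀ j, ∃ τ ∈ Fx G a, tr τ (q0 j).A ⊆ M1 := by
    intro j
    obtain ⟨hEN, -, -, hisl⟩ := hq0 j
    obtain ⟨n, g, hg⟩ := hEN.2.1.fin_param
    have hg' : Set.range g = (q0 j).A := hg.2
    have hi : Isl X a g := hisl n g hg'.subset
    obtain ⟨c', hc', τ, hτ, hτc⟩ := (h5 V G X a hac (Fin n) g).2.2.2.2.1 M1 hM1 haM hi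
    refine ⟨τ, hτ, ?_⟩
    rw [← hg', tr_range, hτc]
    exact hc'
  choose τ hτ hτM using hmove
  have hfo : ∀ j, ∀ σ ∈ Fx G a, NO X (mv σ (q0 j)) (q0 j) := by
    intro j
    obtain ⟨hEN, hSup, hStn, -⟩ := hq0 j
    exact (h3 V G X a (q0 j) hZS.afin hEN.1 hEN.2.1 hSup).2.2 hStn
  -- level one
  obtain ⟨C1, hC1c, hC1, hC1f⟩ := zx_ctr X h2 (WW a z c) hWc
  let C : Set (Ty V) := Set.range (fun j => mv (τ j) (q0 j)) ∪ {p ∈ C1 | EN0 X p}
  have hCc : C.Countable :=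
    (Set.countable_range _).union (hC1c.mono (fun p hp => hp.1))
  have hEN0 : ∀ p ∈ C, EN0 X p := by
    rintro p (⟨j, rfl⟩ | hp)
    · exact (h6 V G X (τ j)).2.2.2.2.2.2.2.2.2.1 _ (hq0 j).1
    · exact hp.2
  -- the classes which are nonorthogonal to an active type are left out
  let C' : Set (Ty V) := {p ∈ C | ∀ j, ¬ NO X p (t j)}
  obtain ⟨Ξ, hΞ, q, hq1, hq2, hq3⟩ := zx_pick X h8 C' (hCc.mono (fun p hp => hp.1))
    (fun p hp => (hEN0 p hp.1).1)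
  refine ⟨⋃ j, tr (τ j) (q0 j).A, Ξ, hΞ, q, Set.iUnion_subset hτM,
    Set.finite_iUnion (fun j => tr_finite (τ j) (hq0 j).1.2.1), ⟨?_, hq2, ?_, ?_⟩, ?_⟩
  · intro x
    refine ⟨hEN0 _ (hq1 x).1, ?_⟩
    rcases (hq1 x).1 with ⟨j, hj⟩ | hp
    · rw [← hj]
      exact (Set.subset_iUnion (fun j => tr (τ j) (q0 j).A) j).trans Set.subset_union_right
    · exact (((hC1 _ hp.1).2.2).trans Set.subset_union_left).trans Set.subset_union_left
  · intro x j
    exact (hq1 x).2 j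
  · intro r hr hrQ
    -- every class is represented in `C`
    have key : ∃ p ∈ C, NO X r p := by
      rcases h1 V G X Q a d s t κ l z c hFew hZS hWQ r hr hrQ with hS | ⟨i, hi1, hi2⟩
      · obtain ⟨j, hj⟩ := hq03 r hr hS
        refine ⟨mv (τ j) (q0 j), Or.inl ⟨j, rfl⟩, ?_⟩
        have e1 : NO X (mv (τ j) (q0 j)) (q0 j) := hfo j (τ j) (hτ j)
        exact n3 r (q0 j) _ hr.1 (hq0 j).1.1 ((h6 V G X (τ j)).2.2.1 _ (hq0 j).1.1) hj
          (n2 _ _ e1)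
      · obtain ⟨q', hq', hqA, hN⟩ := (hWQ.z3 i).2.2 r hr hi1 hi2
        have hqW : q'.A ⊆ WW a z c := by
          refine hqA.trans (Set.union_subset_union le_rfl ?_)
          exact Set.subset_iUnion (fun i => Set.range (z i) ∪ c i) i
        obtain ⟨p', hp', b1, b2, b3⟩ := hC1f q' hq'.1 hq'.2.1 hqW
        refine ⟨p', Or.inr ⟨hp', (hC1 p' hp').1, (hC1 p' hp').2.1, ?_⟩, ?_⟩
        · intro hI
          rw [b1] at hI
          exact hq'.2.2 ((h5 V G X q'.A hq'.1.cnt (Fin 1) p'.z).2.2.2.2.2.2 q'.z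
            (eqv_symm b3) hI)
        · obtain ⟨B, y, y', c1, c2, c3, c4, c5, c6⟩ := hN
          refine ⟨B, y, y', c1, c2, b1 ▸ c3, c4, ⟨?_, ?_⟩, c6⟩
          · rw [b1]
            exact eqv_trans (eqv_symm b3) c5.1
          · rw [b1]
            exact c5.2
    obtain ⟨p, hp, hrp⟩ := key
    by_cases hpt : ∀ j, ¬ NO X p (t j)
    · left
      obtain ⟨x, hx⟩ := hq3 p ⟨hp, hpt⟩
      exact ⟨x, n3 r p (q x) hr.1 (hEN0 p hp).1 (hEN0 _ (hq1 x).1).1 hrp hx⟩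
    · right
      push Not at hpt
      obtain ⟨j, hj⟩ := hpt
      exact ⟨j, n3 r p (t j) hr.1 (hEN0 p hp).1 (hZS.t1 j).1 hrp hj⟩
  · intro x
    rcases (hq1 x).1 with ⟨j, hj⟩ | hp
    · right
      rw [← hj]
      refine ⟨?_, ?_⟩
      · have e1 := (h4 V G X).2.2.2.2.2.1 a (q0 j).A (τ j) hac (hq0 j).1.2.1.countable
          (hq0 j).2.2.1
        rwa [tr_fx (hτ j)] at e1
      · intro τ' hτ'
        have s1 : SR X (mv (τ j) (q0 j)) := (h6 V G X (τ j)).2.2.1 _ (hq0 j).1.1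
        have e1 : NO X (mv (τ j) (q0 j)) (q0 j) := hfo j (τ j) (hτ j)
        have e2 : NO X (mv (τ' * τ j) (q0 j)) (q0 j) :=
          hfo j (τ' * τ j) (mul_mem hτ' (hτ j))
        have s2 : SR X (mv (τ' * τ j) (q0 j)) := (h6 V G X (τ' * τ j)).2.2.1 _ (hq0 j).1.1
        have e3 := n3 _ _ _ s2 (hq0 j).1.1 s1 e2 (n2 _ _ e1)
        rw [zx_mv_mv]
        exact e3
    · left
      exact (hC1 _ hp.1).2.2

end Pool.Agent.Helper90.MZ
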